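import Mathlib

/-!
Scarf's lemma for linear orders, in the form with slack elements.
-/

namespace Pool.Agent.H84L

section Scarf

variable {V I : Type} [Fintype V] [DecidableEq V] [Fintype I] [DecidableEq I]

/-- A finite set `X` is dominating if no element is above the minimum of `X` in all orders. -/
def Dom (ρ : I → V → ℕ) (X : Finset V) : Prop := ∀ y, ∃ i, ∀ x ∈ X, ρ i y ≤ ρ i x

omit [Fintype V] [DecidableEq V] [Fintype I] [DecidableEq I] in
private lemma sc_dom_mono {ρ : I → V → ℕ} {X Y : Finset V} (h : X ⊆ Y) (hY : Dom ρ Y) :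
    Dom ρ X := fun y => by
  obtain ⟨i, hi⟩ := hY y
  exact ⟨i, fun x hx => hi x (h hx)⟩

/-- The set of extensions of a wall. -/
private noncomputable def ext (ρ : I → V → ℕ) (X : Finset V) : Finset V := by
  classical exact Finset.univ.filter (fun y => y ∉ X ∧ Dom ρ (insert y X))

omit [Fintype I] [DecidableEq I] in
private lemma sc_mem_ext {ρ : I → V → ℕ} {X : Finset V} {y : V} :
    y ∈ ext ρ X ↔ y ∉ X ∧ Dom ρ (insert y X) := by
  unfold ext; simp

omit [Fintype V] [DecidableEq V] [Fintype I] [DecidableEq I] in
/-- A dominating set all of whose elements are minima: the minimum map is onto. -/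
private lemma sc_min_surj {ρ : I → V → ℕ} (hinj : ∀ i, Function.Injective (ρ i))
    {X : Finset V} (hX : Dom ρ X) (mn : I → V)
    (hmem : ∀ i, mn i ∈ X) (hmin : ∀ i, ∀ x ∈ X, ρ i (mn i) ≤ ρ i x) :
    ∀ x ∈ X, ∃ i, mn i = x := by
  intro x hx
  obtain ⟨i, hi⟩ := hX x
  exact ⟨i, hinj i (le_antisymm (hmin i x hx) (hi _ (hmem i)))⟩

/-- The extensions of a wall `X` that contains an element which is not a slack: exactly two. -/
private lemma sc_two {ρ : I → V → ℕ} (hinj : ∀ i, Function.Injective (ρ i)) {X : Finset V}
    (hX : Dom ρ X) (hcard : X.card + 1 = Fintype.card I) (sl : I → V)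
    {t : V} (ht : t ∈ X) (hbig : ∀ i j, i ≠ j → ρ i t < ρ i (sl j)) :
    (ext ρ X).card = 2 := by
  classical
  have hne : X.Nonempty := ⟨t, ht⟩
  have hex : ∀ i, ∃ x ∈ X, ∀ x' ∈ X, ρ i x ≤ ρ i x' := fun i => X.exists_min_image (ρ i) hne
  choose mn hmem hmin using hex
  have hsurj := sc_min_surj hinj hX mn hmem hmin
  -- two indices with the same minimum
  obtain ⟨a, b, hab, hmab⟩ : ∃ a b : I, a ≠ b ∧ mn a = mn b := by
    have h1 : Fintype.card X < Fintype.card I := by
      rw [Fintype.card_coe]; omega
    obtain ⟨a, b, hab, h⟩ := Fintype.exists_ne_map_eq_of_card_lt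
      (fun i : I => (⟨mn i, hmem i⟩ : X)) h1
    exact ⟨a, b, hab, by simpa using h⟩
  -- injectivity away from `a`
  have hinja : ∀ c : I, (c = a ∨ c = b) → Set.InjOn mn (↑(Finset.univ.erase c) : Set I) := by
    intro c hc
    apply Finset.injOn_of_surjOn_of_card_le mn (t := X)
    · intro i _; exact hmem i
    · intro x hx
      obtain ⟨i, hi⟩ := hsurj x hx
      by_cases hic : i = c
      · rcases hc with rfl | rfl
        · refine ⟨b, ?_, ?_⟩
          · simp [hab.symm]
          · rw [← hmab, ← hic, hi]
        · refine ⟨a, ?_, ?_⟩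
          · simp [hab]
          · rw [hmab, ← hic, hi]
      · exact ⟨i, by simp [hic], hi⟩
    · rw [Finset.card_erase_of_mem (Finset.mem_univ _), Finset.card_univ]; omega
  -- the sets M_c
  let M : I → Finset V := fun c => Finset.univ.filter (fun z => ∀ j, j ≠ c → ρ j (mn j) < ρ j z)
  have hM : ∀ c z, z ∈ M c ↔ ∀ j, j ≠ c → ρ j (mn j) < ρ j z := by
    intro c z; simp [M]
  -- backward direction
  have hback : ∀ c : I, (c = a ∨ c = b) → ∀ y ∈ M c, (∀ z ∈ M c, ρ c z ≤ ρ c y) →
      y ∈ ext ρ X := by
    intro c hc y hy hmax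
    rw [hM] at hy
    have hdy : ∀ x ∈ X, ρ c y ≤ ρ c x := by
      obtain ⟨i, hi⟩ := hX y
      by_cases hic : i = c
      · subst hic; exact hi
      · exact absurd (hi _ (hmem i)) (not_le.mpr (hy i hic))
    rw [sc_mem_ext]
    refine ⟨?_, ?_⟩
    · intro hyX
      obtain ⟨i, hi⟩ := hsurj y hyX
      by_cases hic : i = c
      · rcases hc with rfl | rfl
        · have := hy b hab.symm
          rw [← hmab, ← hic, hi] at this
          exact lt_irrefl _ this
        · have := hy a hab
          rw [hmab, ← hic, hi] at this
          exact lt_irrefl _ this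
      · have := hy i hic
        rw [hi] at this
        exact lt_irrefl _ this
    · intro z
      by_cases hz : z ∈ M c
      · refine ⟨c, ?_⟩
        intro x hx
        rcases Finset.mem_insert.mp hx with rfl | hx
        · exact hmax z hz
        · exact (hmax z hz).trans (hdy x hx)
      · rw [hM] at hz
        push Not at hz
        obtain ⟨j, hjc, hj⟩ := hz
        refine ⟨j, ?_⟩
        intro x hx
        rcases Finset.mem_insert.mp hx with rfl | hx
        · exact hj.trans (hy j hjc).le
        · exact hj.trans (hmin j x hx)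
  -- forward direction
  have hforw : ∀ y ∈ ext ρ X, ∃ c : I, (c = a ∨ c = b) ∧ y ∈ M c ∧ ∀ z ∈ M c, ρ c z ≤ ρ c y := by
    intro y hy
    rw [sc_mem_ext] at hy
    obtain ⟨hyX, hD⟩ := hy
    have hex' : ∀ i, ∃ x ∈ insert y X, ∀ x' ∈ insert y X, ρ i x ≤ ρ i x' :=
      fun i => (insert y X).exists_min_image (ρ i) (Finset.insert_nonempty _ _)
    choose mn' hmem' hmin' using hex'
    have hsurj' := sc_min_surj hinj hD mn' hmem' hmin'
    have hinj' : Set.InjOn mn' (↑(Finset.univ : Finset I) : Set I) := by
      apply Finset.injOn_of_surjOn_of_card_le mn' (t := insert y X)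
      · intro i _; exact hmem' i
      · intro x hx
        obtain ⟨i, hi⟩ := hsurj' x hx
        exact ⟨i, by simp, hi⟩
      · rw [Finset.card_insert_of_notMem hyX, Finset.card_univ]; omega
    have hinj'' : ∀ i j, mn' i = mn' j → i = j := fun i j h =>
      hinj' (by simp) (by simp) h
    obtain ⟨c, hc⟩ := hsurj' y (Finset.mem_insert_self _ _)
    have hother : ∀ j, j ≠ c → mn' j = mn j := by
      intro j hj
      have h1 : mn' j ≠ y := fun h => hj (hinj'' _ _ (h.trans hc.symm))
      have h2 : mn' j ∈ X := by
        rcases Finset.mem_insert.mp (hmem' j) with h | h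
        · exact absurd h h1
        · exact h
      exact hinj j (le_antisymm (hmin' j _ (Finset.mem_insert_of_mem (hmem j))) (hmin j _ h2))
    have hcab : c = a ∨ c = b := by
      by_contra hcon
      push Not at hcon
      have h1 := hother a (Ne.symm hcon.1)
      have h2 := hother b (Ne.symm hcon.2)
      exact hab (hinj'' _ _ (by rw [h1, h2, hmab]))
    refine ⟨c, hcab, ?_, ?_⟩
    · rw [hM]
      intro j hj
      have h1 : ρ j (mn j) ≤ ρ j y := by
        rw [← hother j hj]; exact hmin' j y (Finset.mem_insert_self _ _)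
      refine lt_of_le_of_ne h1 ?_
      intro h
      exact hyX (by rw [← hinj j h]; exact hmem j)
    · intro z hz
      rw [hM] at hz
      obtain ⟨i, hi⟩ := hD z
      by_cases hic : i = c
      · subst hic; exact hi y (Finset.mem_insert_self _ _)
      · exact absurd (hi _ (Finset.mem_insert_of_mem (hmem i))) (not_le.mpr (hz i hic))
  -- M_c is nonempty
  have hMne : ∀ c, (M c).Nonempty := by
    intro c
    refine ⟨sl c, ?_⟩
    rw [hM]
    intro j hj
    exact lt_of_le_of_lt (hmin j t ht) (hbig j c hj)
  obtain ⟨ya, hya, hyamax⟩ := (M a).exists_max_image (ρ a) (hMne a)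
  obtain ⟨yb, hyb, hybmax⟩ := (M b).exists_max_image (ρ b) (hMne b)
  have hyab : ya ≠ yb := by
    intro h
    rw [hM] at hya hyb
    obtain ⟨i, hi⟩ := hX ya
    by_cases hia : i = a
    · have h1 : i ≠ b := by rw [hia]; exact hab
      exact absurd (hi _ (hmem i)) (not_le.mpr (by rw [h]; exact hyb i h1))
    · exact absurd (hi _ (hmem i)) (not_le.mpr (hya i hia))
  have hset : ext ρ X = {ya, yb} := by
    ext y
    simp only [Finset.mem_insert, Finset.mem_singleton]
    constructor
    · intro hy
      obtain ⟨c, hc, hyM, hmax⟩ := hforw y hy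
      rcases hc with rfl | rfl
      · left; exact hinj c (le_antisymm (hyamax _ hyM) (hmax _ hya))
      · right; exact hinj c (le_antisymm (hybmax _ hyM) (hmax _ hyb))
    · rintro (rfl | rfl)
      · exact hback a (Or.inl rfl) y hya hyamax
      · exact hback b (Or.inr rfl) y hyb hybmax
  rw [hset, Finset.card_pair hyab]

/-- The extensions of the wall of all slacks but one: exactly one. -/
private lemma sc_one {ρ : I → V → ℕ} (hinj : ∀ i, Function.Injective (ρ i)) (sl : I → V)
    (hsl : ∀ i v, ρ i (sl i) ≤ ρ i v)
    (hbig : ∀ v, v ∉ Set.range sl → ∀ i j, i ≠ j → ρ i v < ρ i (sl j))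
    (hT : ∃ v, v ∉ Set.range sl) (i0 : I) :
    (ext ρ ((Finset.univ.erase i0).image sl)).card = 1 := by
  classical
  obtain ⟨v0, hv0⟩ := hT
  -- `z` below the slack `i` in order `i` is the slack
  have hlow : ∀ i z, ρ i z ≤ ρ i (sl i) → z = sl i := fun i z h =>
    hinj i (le_antisymm h (hsl i z))
  let T : Finset V := Finset.univ.filter (fun v => v ∉ Set.range sl)
  have hTm : ∀ v, v ∈ T ↔ v ∉ Set.range sl := by intro v; simp [T]
  obtain ⟨y, hy, hymax⟩ := T.exists_max_image (ρ i0) ⟨v0, (hTm v0).mpr hv0⟩
  have hset : ext ρ ((Finset.univ.erase i0).image sl) = {y} := by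
    ext z
    rw [sc_mem_ext, Finset.mem_singleton]
    constructor
    · rintro ⟨hz, hD⟩
      have hzT : z ∉ Set.range sl := by
        rintro ⟨k, hk⟩
        by_cases hk0 : k = i0
        · obtain ⟨i, hi⟩ := hD v0
          have h1 : ρ i v0 ≤ ρ i (sl i) := by
            apply hi
            by_cases hii : i = i0
            · rw [hii, ← hk0, hk]; exact Finset.mem_insert_self _ _
            · exact Finset.mem_insert_of_mem (Finset.mem_image_of_mem _ (by simp [hii]))
          exact hv0 ⟨i, (hlow i v0 h1).symm⟩
        · exact hz (by rw [← hk]; exact Finset.mem_image_of_mem _ (by simp [hk0]))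
      have hup : ∀ w, w ∉ Set.range sl → ρ i0 w ≤ ρ i0 z := by
        intro w hw
        obtain ⟨i, hi⟩ := hD w
        by_cases hii : i = i0
        · subst hii; exact hi z (Finset.mem_insert_self _ _)
        · exfalso
          have h1 : ρ i w ≤ ρ i (sl i) :=
            hi _ (Finset.mem_insert_of_mem (Finset.mem_image_of_mem _ (by simp [hii])))
          exact hw ⟨i, (hlow i w h1).symm⟩
      exact hinj i0 (le_antisymm (hymax z ((hTm z).mpr hzT)) (hup y ((hTm y).mp hy)))
    · rintro rfl
      have hyT := (hTm z).mp hy
      refine ⟨?_, ?_⟩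
      · intro h
        obtain ⟨k, _, hk⟩ := Finset.mem_image.mp h
        exact hyT ⟨k, hk⟩
      · intro w
        by_cases hw : w ∈ Set.range sl
        · obtain ⟨k, rfl⟩ := hw
          exact ⟨k, fun x _ => hsl k x⟩
        · refine ⟨i0, ?_⟩
          intro x hx
          rcases Finset.mem_insert.mp hx with rfl | hx
          · exact hymax w ((hTm w).mpr hw)
          · obtain ⟨k, hk, rfl⟩ := Finset.mem_image.mp hx
            exact (hbig w hw i0 k (by simpa using (Finset.ne_of_mem_erase hk).symm)).le
  rw [hset, Finset.card_singleton]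

omit [Fintype V] in
/-- Faces of a set `Y` with `|I|` elements with colours all but `i0`. -/
private lemma sc_faces (c : V → I) (i0 : I) {Y : Finset V} (hY : Y.card = Fintype.card I)
    (hnr : Y.image c ≠ Finset.univ) :
    Even (Y.filter (fun y => (Y.erase y).image c = Finset.univ.erase i0)).card := by
  classical
  by_cases hem : (Y.filter (fun y => (Y.erase y).image c = Finset.univ.erase i0)) = ∅
  · rw [hem]; simp
  · obtain ⟨y, hy⟩ := Finset.nonempty_iff_ne_empty.mpr hem
    rw [Finset.mem_filter] at hy
    obtain ⟨hyY, hyc⟩ := hy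
    have hcard : (Y.erase y).card = (Finset.univ.erase i0 : Finset I).card := by
      rw [Finset.card_erase_of_mem hyY, Finset.card_erase_of_mem (Finset.mem_univ _), hY,
        Finset.card_univ]
    have hinj : Set.InjOn c (↑(Y.erase y) : Set V) := by
      apply Finset.card_image_iff.mp
      rw [hyc, hcard]
    have hcy : c y ≠ i0 := by
      intro h
      apply hnr
      rw [← Finset.insert_erase hyY, Finset.image_insert, hyc, h,
        Finset.insert_erase (Finset.mem_univ _)]
    have hYc : Y.image c = Finset.univ.erase i0 := by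
      rw [← Finset.insert_erase hyY, Finset.image_insert, hyc]
      exact Finset.insert_eq_of_mem (by simp [hcy])
    obtain ⟨y', hy', hcy'⟩ : ∃ y' ∈ Y.erase y, c y' = c y := by
      have : c y ∈ (Y.erase y).image c := by rw [hyc]; simp [hcy]
      simpa using this
    have hy'Y : y' ∈ Y := Finset.mem_of_mem_erase hy'
    have hne : y ≠ y' := (Finset.ne_of_mem_erase hy').symm
    have hset : Y.filter (fun y => (Y.erase y).image c = Finset.univ.erase i0) = {y, y'} := by
      ext z
      rw [Finset.mem_filter, Finset.mem_insert, Finset.mem_singleton]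
      constructor
      · rintro ⟨hzY, hzc⟩
        by_contra hcon
        push Not at hcon
        have hcz : c z ∈ (Y.erase z).image c := by
          rw [hzc, ← hYc]; exact Finset.mem_image_of_mem _ hzY
        obtain ⟨w, hw, hcw⟩ := Finset.mem_image.mp hcz
        have hwY := Finset.mem_of_mem_erase hw
        have hwz := Finset.ne_of_mem_erase hw
        have hz1 : z ∈ (↑(Y.erase y) : Set V) := by
          simp only [Finset.mem_coe, Finset.mem_erase]; exact ⟨hcon.1, hzY⟩
        by_cases hwy : w = y
        · subst hwy
          exact hcon.2 (hinj hz1 (Finset.mem_coe.mpr hy') (by rw [hcy', hcw]))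
        · exact hwz (hinj (by simp only [Finset.mem_coe, Finset.mem_erase]; exact ⟨hwy, hwY⟩)
            hz1 hcw)
      · rintro (rfl | rfl)
        · exact ⟨hyY, hyc⟩
        · refine ⟨hy'Y, ?_⟩
          apply Finset.Subset.antisymm
          · rw [← hYc]; exact Finset.image_subset_image (Finset.erase_subset _ _)
          · intro i hi
            rw [← hyc] at hi
            obtain ⟨x, hx, rfl⟩ := Finset.mem_image.mp hi
            by_cases hxz : x = z
            · subst hxz
              rw [hcy']
              exact Finset.mem_image_of_mem _ (Finset.mem_erase.mpr ⟨hne, hyY⟩)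
            · exact Finset.mem_image_of_mem _
                (Finset.mem_erase.mpr ⟨hxz, Finset.mem_of_mem_erase hx⟩)
    rw [hset, Finset.card_pair hne]
    exact even_two

/-- **Scarf's lemma** for linear orders with slack elements: for every colouring in which the
slack `sl i` has colour `i` there is a dominating set with all the colours, one for each
element. -/
theorem scarf [Nonempty I] (ρ : I → V → ℕ) (hinj : ∀ i, Function.Injective (ρ i)) (sl : I → V)
    (hsl : ∀ i v, ρ i (sl i) ≤ ρ i v)
    (hbig : ∀ v, v ∉ Set.range sl → ∀ i j, i ≠ j → ρ i v < ρ i (sl j))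
    (hT : ∃ v, v ∉ Set.range sl) (c : V → I) (hc : ∀ i, c (sl i) = i) :
    ∃ X : Finset V, X.card = Fintype.card I ∧ Dom ρ X ∧ X.image c = Finset.univ := by
  classical
  by_contra hno
  push Not at hno
  obtain ⟨i0⟩ := (inferInstance : Nonempty I)
  have hslinj : Function.Injective sl := fun i j h => by
    rw [← hc i, ← hc j, h]
  have hIpos : 0 < Fintype.card I := Fintype.card_pos
  let C : Finset (Finset V) := Finset.univ.filter (fun Y => Y.card = Fintype.card I ∧ Dom ρ Y)
  let W : Finset (Finset V) := Finset.univ.filter (fun X => X.card + 1 = Fintype.card I ∧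
    Dom ρ X ∧ X.image c = Finset.univ.erase i0)
  have hC : ∀ Y, Y ∈ C ↔ Y.card = Fintype.card I ∧ Dom ρ Y := by intro Y; simp [C]
  have hW : ∀ X, X ∈ W ↔ X.card + 1 = Fintype.card I ∧ Dom ρ X ∧
      X.image c = Finset.univ.erase i0 := by intro X; simp [W]
  have key := Finset.sum_card_bipartiteAbove_eq_sum_card_bipartiteBelow
    (s := W) (t := C) (fun X Y => X ⊆ Y)
  -- the number of cells above a wall
  have habove : ∀ X ∈ W, (Finset.bipartiteAbove (fun X Y => X ⊆ Y) C X).card =
      (ext ρ X).card := by
    intro X hX
    rw [hW] at hX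
    symm
    apply Finset.card_bij (fun y _ => insert y X)
    · intro y hy
      rw [sc_mem_ext] at hy
      rw [Finset.mem_bipartiteAbove, hC]
      refine ⟨⟨?_, hy.2⟩, Finset.subset_insert _ _⟩
      rw [Finset.card_insert_of_notMem hy.1]; exact hX.1
    · intro y hy y' hy' h
      rw [sc_mem_ext] at hy hy'
      have h1 : y ∈ insert y' X := by
        rw [← h]; exact Finset.mem_insert_self _ _
      rcases Finset.mem_insert.mp h1 with h2 | h2
      · exact h2
      · exact absurd h2 hy.1
    · intro Y hY
      rw [Finset.mem_bipartiteAbove, hC] at hY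
      obtain ⟨⟨hYc, hYD⟩, hXY⟩ := hY
      have h1 : (Y \ X).card = 1 := by
        rw [Finset.card_sdiff_of_subset hXY]; omega
      obtain ⟨y, hy⟩ := Finset.card_eq_one.mp h1
      have hyX : y ∉ X := by
        have : y ∈ Y \ X := by rw [hy]; simp
        exact (Finset.mem_sdiff.mp this).2
      have hYins : insert y X = Y := by
        ext z
        constructor
        · intro hz
          rcases Finset.mem_insert.mp hz with rfl | hz
          · have : z ∈ Y \ X := by rw [hy]; simp
            exact (Finset.mem_sdiff.mp this).1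
          · exact hXY hz
        · intro hz
          by_cases hzX : z ∈ X
          · exact Finset.mem_insert_of_mem hzX
          · have : z ∈ Y \ X := Finset.mem_sdiff.mpr ⟨hz, hzX⟩
            rw [hy, Finset.mem_singleton] at this
            rw [this]; exact Finset.mem_insert_self _ _
      refine ⟨y, ?_, hYins⟩
      rw [sc_mem_ext]
      exact ⟨hyX, by rw [hYins]; exact hYD⟩
  -- the number of walls below a cell is even
  have hbelow : ∀ Y ∈ C, Even (Finset.bipartiteBelow (fun X Y => X ⊆ Y) W Y).card := by
    intro Y hY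
    rw [hC] at hY
    have h1 := sc_faces c i0 hY.1 (hno Y hY.1 hY.2)
    have h2 : (Finset.bipartiteBelow (fun X Y => X ⊆ Y) W Y).card =
        (Y.filter (fun y => (Y.erase y).image c = Finset.univ.erase i0)).card := by
      symm
      apply Finset.card_bij (fun y _ => Y.erase y)
      · intro y hy
        rw [Finset.mem_filter] at hy
        rw [Finset.mem_bipartiteBelow, hW]
        refine ⟨⟨?_, sc_dom_mono (Finset.erase_subset _ _) hY.2, hy.2⟩,
          Finset.erase_subset _ _⟩
        rw [Finset.card_erase_of_mem hy.1, hY.1]; omega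
      · intro y hy y' hy' h
        rw [Finset.mem_filter] at hy hy'
        by_contra hne
        have : y ∈ Y.erase y' := Finset.mem_erase.mpr ⟨hne, hy.1⟩
        have h' : Y.erase y = Y.erase y' := h
        rw [← h'] at this
        simp at this
      · intro X hX
        rw [Finset.mem_bipartiteBelow, hW] at hX
        obtain ⟨⟨hXc, _, hXi⟩, hXY⟩ := hX
        have h1 : (Y \ X).card = 1 := by
          rw [Finset.card_sdiff_of_subset hXY]; omega
        obtain ⟨y, hy⟩ := Finset.card_eq_one.mp h1
        have hyY : y ∈ Y \ X := by rw [hy]; simp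
        rw [Finset.mem_sdiff] at hyY
        have hXe : Y.erase y = X := by
          ext z
          rw [Finset.mem_erase]
          constructor
          · rintro ⟨hz1, hz2⟩
            by_contra hzX
            have : z ∈ Y \ X := Finset.mem_sdiff.mpr ⟨hz2, hzX⟩
            rw [hy, Finset.mem_singleton] at this
            exact hz1 this
          · intro hz
            refine ⟨?_, hXY hz⟩
            rintro rfl
            exact hyY.2 hz
        refine ⟨y, ?_, hXe⟩
        rw [Finset.mem_filter]
        exact ⟨hyY.1, by rw [hXe]; exact hXi⟩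
    rw [h2]; exact h1
  -- the special wall
  let X0 : Finset V := (Finset.univ.erase i0).image sl
  have hX0W : X0 ∈ W := by
    rw [hW]
    refine ⟨?_, ?_, ?_⟩
    · rw [Finset.card_image_of_injective _ hslinj,
        Finset.card_erase_of_mem (Finset.mem_univ _), Finset.card_univ]
      omega
    · intro w
      by_cases hw : w ∈ Set.range sl
      · obtain ⟨k, rfl⟩ := hw
        exact ⟨k, fun x _ => hsl k x⟩
      · refine ⟨i0, ?_⟩
        intro x hx
        obtain ⟨k, hk, rfl⟩ := Finset.mem_image.mp hx
        exact (hbig w hw i0 k (by simpa using (Finset.ne_of_mem_erase hk).symm)).le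
    · rw [Finset.image_image]
      have : (c ∘ sl) = id := by funext i; simp [hc]
      rw [this, Finset.image_id]
  have hX0 : (ext ρ X0).card = 1 := sc_one hinj sl hsl hbig hT i0
  have hother : ∀ X ∈ W.erase X0, (ext ρ X).card = 2 := by
    intro X hX
    obtain ⟨hne, hX⟩ := Finset.mem_erase.mp hX
    rw [hW] at hX
    obtain ⟨h1, h2, h3⟩ := hX
    -- X contains an element that is not a slack
    have hex : ∃ t ∈ X, t ∉ Set.range sl := by
      by_contra hcon
      push Not at hcon
      apply hne
      apply Finset.eq_of_subset_of_card_le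
      · intro x hx
        obtain ⟨k, hk⟩ := hcon x hx
        have : k ∈ X.image c := Finset.mem_image.mpr ⟨x, hx, by rw [← hk, hc]⟩
        rw [h3] at this
        exact Finset.mem_image.mpr ⟨k, this, hk⟩
      · rw [Finset.card_image_of_injective _ hslinj,
          Finset.card_erase_of_mem (Finset.mem_univ _), Finset.card_univ]
        omega
    obtain ⟨t, ht, htT⟩ := hex
    exact sc_two hinj h2 h1 sl ht (fun i j hij => hbig t htT i j hij)
  -- conclusion
  have hleft : ∑ X ∈ W, (Finset.bipartiteAbove (fun X Y => X ⊆ Y) C X).card =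
      2 * (W.erase X0).card + 1 := by
    rw [Finset.sum_congr rfl habove, ← Finset.sum_erase_add _ _ hX0W, hX0,
      Finset.sum_congr rfl hother, Finset.sum_const, smul_eq_mul, mul_comm]
  have hright : Even (∑ Y ∈ C, (Finset.bipartiteBelow (fun X Y => X ⊆ Y) W Y).card) :=
    Finset.even_sum _ hbelow
  rw [← key, hleft] at hright
  have : ¬ Even (2 * (W.erase X0).card + 1) := by
    rw [Nat.not_even_iff_odd]; exact ⟨_, rfl⟩
  exact this hright

end Scarf

end Pool.Agent.H84L
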