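import Mathlib
import Pool.Agent.H84L.Scarf

/-!
A discrete KKM lemma on the simplex of gaps, from Scarf's lemma.
-/

namespace Pool.Agent.H84L

/-- Compositions of `N` into `L` parts. -/
abbrev Cmp (L N : ℕ) : Type := {g : Fin L → Fin (N + 1) // ∑ i, (g i : ℕ) = N}

/-- Step 1: a dominating family of compositions with all the colours in `C`. -/
private lemma kk_small {L N : ℕ} (hL : 0 < L) (c : Cmp L N → Fin L) :
    ∃ (S : Finset (Cmp L N)) (C : Finset (Fin L)), C.Nonempty ∧
      (∀ i ∈ C, ∃ x ∈ S, c x = i) ∧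
      (∀ y : Cmp L N, ∃ i ∈ C, ∀ x ∈ S, (y.1 i : ℕ) ≤ x.1 i) := by
  classical
  have : Nonempty (Fin L) := ⟨⟨0, hL⟩⟩
  let K : ℕ := Fintype.card (Cmp L N)
  let e : Cmp L N ≃ Fin K := Fintype.equivFin _
  let ρ : Fin L → (Cmp L N ⊕ Fin L) → ℕ := fun i v =>
    match v with
    | Sum.inl g => (g.1 i : ℕ) * K + (e g : ℕ) + 1
    | Sum.inr j => if i = j then 0 else (N + 1) * K + 1 + (j : ℕ)
  have hρl : ∀ i g, ρ i (Sum.inl g) = (g.1 i : ℕ) * K + (e g : ℕ) + 1 := fun _ _ => rfl
  have hρr : ∀ i j, ρ i (Sum.inr j) = if i = j then 0 else (N + 1) * K + 1 + (j : ℕ) :=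
    fun _ _ => rfl
  have hlow : ∀ i g, ρ i (Sum.inl g) ≤ (N + 1) * K := by
    intro i g
    rw [hρl]
    have h1 : (g.1 i : ℕ) ≤ N := Nat.lt_succ_iff.mp (g.1 i).2
    have h2 : (e g : ℕ) < K := (e g).2
    have h3 : (g.1 i : ℕ) * K ≤ N * K := Nat.mul_le_mul_right _ h1
    rw [add_mul, one_mul]; omega
  have hinj : ∀ i, Function.Injective (ρ i) := by
    intro i v w h
    rcases v with g | j <;> rcases w with g' | j'
    · rw [hρl, hρl] at h
      have h2 : (e g : ℕ) < K := (e g).2
      have h2' : (e g' : ℕ) < K := (e g').2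
      have h3 : (e g : ℕ) = (e g' : ℕ) := by
        have h4 : ((g.1 i : ℕ) * K + (e g : ℕ)) % K = ((g'.1 i : ℕ) * K + (e g' : ℕ)) % K := by
          congr 1; omega
        rw [Nat.add_comm, Nat.add_mul_mod_self_right, Nat.mod_eq_of_lt h2, Nat.add_comm,
          Nat.add_mul_mod_self_right, Nat.mod_eq_of_lt h2'] at h4
        exact h4
      have h5 : g = g' := e.injective (Fin.ext h3)
      rw [h5]
    · exfalso
      have h1 := hlow i g
      rw [h, hρr] at h1
      split_ifs at h1 with hij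
      · rw [hρl, hρr, if_pos hij] at h; omega
      · omega
    · exfalso
      have h1 := hlow i g'
      rw [← h, hρr] at h1
      split_ifs at h1 with hij
      · rw [hρl, hρr, if_pos hij] at h; omega
      · omega
    · rw [hρr, hρr] at h
      split_ifs at h with h1 h2 h2
      · rw [← h1, ← h2]
      · omega
      · omega
      · congr 1
        exact Fin.ext (by omega)
  have hrange : ∀ v : Cmp L N ⊕ Fin L, v ∉ Set.range (Sum.inr : Fin L → Cmp L N ⊕ Fin L) →
      ∃ g, v = Sum.inl g := by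
    intro v hv
    rcases v with g | j
    · exact ⟨g, rfl⟩
    · exact absurd ⟨j, rfl⟩ hv
  have y0 : Cmp L N := by
    refine ⟨fun i => if i = ⟨0, hL⟩ then ⟨N, Nat.lt_succ_self N⟩ else 0, ?_⟩
    rw [Finset.sum_eq_single ⟨0, hL⟩]
    · simp
    · intro b _ hb; simp [hb]
    · intro h; exact absurd (Finset.mem_univ _) h
  obtain ⟨X, hXc, hXD, hXi⟩ := scarf ρ hinj Sum.inr
    (by
      intro i v
      rw [hρr, if_pos rfl]; exact Nat.zero_le _)
    (by
      intro v hv i j hij
      obtain ⟨g, rfl⟩ := hrange v hv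
      rw [hρr, if_neg hij]
      have := hlow i g
      omega)
    ⟨Sum.inl y0, by rintro ⟨j, hj⟩; cases hj⟩
    (Sum.elim c id) (fun i => rfl)
  refine ⟨Finset.univ.filter (fun g => Sum.inl g ∈ X),
    Finset.univ.filter (fun i => Sum.inr i ∉ X), ?_, ?_, ?_⟩
  · obtain ⟨i, hi⟩ := hXD (Sum.inl y0)
    refine ⟨i, ?_⟩
    rw [Finset.mem_filter]
    refine ⟨Finset.mem_univ _, ?_⟩
    intro h
    have := hi _ h
    rw [hρl, hρr, if_pos rfl] at this
    omega
  · intro i hi
    rw [Finset.mem_filter] at hi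
    have h1 : i ∈ X.image (Sum.elim c id) := by rw [hXi]; exact Finset.mem_univ _
    obtain ⟨v, hv, hvi⟩ := Finset.mem_image.mp h1
    rcases v with g | j
    · exact ⟨g, by simpa using hv, hvi⟩
    · exfalso
      apply hi.2
      have : j = i := hvi
      rw [← this]; exact hv
  · intro y
    obtain ⟨i, hi⟩ := hXD (Sum.inl y)
    refine ⟨i, ?_, ?_⟩
    · rw [Finset.mem_filter]
      refine ⟨Finset.mem_univ _, ?_⟩
      intro h
      have := hi _ h
      rw [hρl, hρr, if_pos rfl] at this
      omega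
    · intro x hx
      rw [Finset.mem_filter] at hx
      have h1 := hi _ hx.2
      rw [hρl, hρl] at h1
      have h2 : (e x : ℕ) < K := (e x).2
      by_contra hcon
      push Not at hcon
      have h3 : ((x.1 i : ℕ) + 1) * K ≤ (y.1 i : ℕ) * K := Nat.mul_le_mul_right _ hcon
      rw [add_mul, one_mul] at h3
      omega

/-- Step 2: the family is small, and near the face of the colours that are absent. -/
private lemma kk_small2 {L N : ℕ} (hL : 0 < L) (c : Cmp L N → Fin L) :
    ∃ (S : Finset (Cmp L N)) (C : Finset (Fin L)), C.Nonempty ∧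
      (∀ i ∈ C, ∃ x ∈ S, c x = i) ∧
      (∀ x ∈ S, ∀ x' ∈ S, ∀ i, (x.1 i : ℕ) ≤ x'.1 i + L) ∧
      (∀ x ∈ S, ∀ j, j ∉ C → (x.1 j : ℕ) ≤ L) := by
  classical
  obtain ⟨S, C, hC, hcol, hdom⟩ := kk_small hL c
  obtain ⟨i1, hi1⟩ := hC
  obtain ⟨x1, hx1, _⟩ := hcol i1 hi1
  have hSne : S.Nonempty := ⟨x1, hx1⟩
  -- the minima
  have hex : ∀ i : Fin L, ∃ x ∈ S, ∀ x' ∈ S, (x.1 i : ℕ) ≤ x'.1 i := fun i =>
    S.exists_min_image (fun x : Cmp L N => (x.1 i : ℕ)) hSne
  choose w hwS hw using hex
  let u : Fin L → ℕ := fun i => ((w i).1 i : ℕ)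
  have hu : ∀ i, ∀ x ∈ S, u i ≤ (x.1 i : ℕ) := fun i x hx => hw i x hx
  -- the sum of the minima is large
  have hbig : N < ∑ i ∈ C, (u i + 1) := by
    by_contra hcon
    push Not at hcon
    -- a composition above all the minima
    let f : Fin L → ℕ := fun i =>
      (if i ∈ C then u i + 1 else 0) + (if i = i1 then N - ∑ i ∈ C, (u i + 1) else 0)
    have hf : ∑ i, f i = N := by
      have h1 : ∑ i, f i = ∑ i ∈ C, (u i + 1) + (N - ∑ i ∈ C, (u i + 1)) := by
        simp only [f]
        rw [Finset.sum_add_distrib]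
        congr 1
        · rw [Finset.sum_ite_mem, Finset.univ_inter]
        · rw [Finset.sum_ite_eq' Finset.univ i1]; simp
      rw [h1]; omega
    have hfN : ∀ i, f i < N + 1 := by
      intro i
      have : f i ≤ ∑ j, f j := Finset.single_le_sum (fun _ _ => Nat.zero_le _) (Finset.mem_univ i)
      omega
    obtain ⟨i, hi, hi2⟩ := hdom ⟨fun i => ⟨f i, hfN i⟩, hf⟩
    have h1 := hi2 _ (hwS i)
    have h2 : u i + 1 ≤ f i := by
      simp only [f, if_pos hi]; omega
    have h3 : f i ≤ u i := h1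
    omega
  have hCL : C.card ≤ L := by
    have := Finset.card_le_univ C
    rwa [Fintype.card_fin] at this
  rw [Finset.sum_add_distrib, Finset.sum_const, smul_eq_mul, mul_one] at hbig
  have hsum : ∀ x : Cmp L N, ∑ i ∈ C, (x.1 i : ℕ) ≤ N := by
    intro x
    calc ∑ i ∈ C, (x.1 i : ℕ) ≤ ∑ i, (x.1 i : ℕ) :=
          Finset.sum_le_sum_of_subset (Finset.subset_univ _)
      _ = N := x.2
  have hout : ∀ x ∈ S, ∀ j, j ∉ C → (x.1 j : ℕ) ≤ L := by
    intro x hx j hj
    have h1 : (x.1 j : ℕ) + ∑ i ∈ C, (x.1 i : ℕ) ≤ N := by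
      calc (x.1 j : ℕ) + ∑ i ∈ C, (x.1 i : ℕ) = ∑ i ∈ insert j C, (x.1 i : ℕ) := by
            rw [Finset.sum_insert hj]
        _ ≤ ∑ i, (x.1 i : ℕ) := Finset.sum_le_sum_of_subset (Finset.subset_univ _)
        _ = N := x.2
    have h2 : ∑ i ∈ C, u i ≤ ∑ i ∈ C, (x.1 i : ℕ) := Finset.sum_le_sum (fun i _ => hu i x hx)
    omega
  refine ⟨S, C, ⟨i1, hi1⟩, hcol, ?_, hout⟩
  intro x hx x' hx' i
  by_cases hi : i ∈ C
  · have h1 : ∑ j ∈ C.erase i, u j ≤ ∑ j ∈ C.erase i, (x.1 j : ℕ) :=
      Finset.sum_le_sum (fun j _ => hu j x hx)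
    have h2 := Finset.add_sum_erase C (fun j => (x.1 j : ℕ)) hi
    have h3 := Finset.add_sum_erase C u hi
    have h4 := hsum x
    have h5 := hu i x' hx'
    have h6 : (x.1 i : ℕ) + ∑ j ∈ C.erase i, (x.1 j : ℕ) = ∑ j ∈ C, (x.1 j : ℕ) := h2
    omega
  · have := hout x hx i hi
    omega

/-- Admissible positions: monotone, starting at `0`, at most `N`. -/
def Adm {L : ℕ} (N : ℕ) (t : Fin L → ℕ) : Prop :=
  Monotone t ∧ (∀ i, t i ≤ N) ∧ ∀ i : Fin L, (i : ℕ) = 0 → t i = 0

/-- The positions of a family of gaps. -/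
def pos {L : ℕ} (g : Fin L → ℕ) (i : Fin L) : ℕ :=
  ∑ j : Fin L, if 0 < (j : ℕ) ∧ j ≤ i then g j else 0

private lemma kk_pos_adm {L N : ℕ} (g : Fin L → ℕ) (hg : ∑ i, g i = N) : Adm N (pos g) := by
  refine ⟨?_, ?_, ?_⟩
  · intro i i' hii
    unfold pos
    apply Finset.sum_le_sum
    intro j _
    by_cases h : 0 < (j : ℕ) ∧ j ≤ i
    · rw [if_pos h, if_pos ⟨h.1, h.2.trans hii⟩]
    · rw [if_neg h]; exact Nat.zero_le _
  · intro i
    rw [← hg]
    unfold pos
    apply Finset.sum_le_sum
    intro j _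
    split_ifs
    · exact le_refl _
    · exact Nat.zero_le _
  · intro i hi
    unfold pos
    apply Finset.sum_eq_zero
    intro j _
    rw [if_neg]
    rintro ⟨h1, h2⟩
    have : (j : ℕ) ≤ i := h2
    omega

private lemma kk_pos_gap {L : ℕ} (g : Fin L → ℕ) (i j : Fin L) (hij : (j : ℕ) + 1 = i)
    (h0 : g i = 0) : pos g i = pos g j := by
  unfold pos
  apply Finset.sum_congr rfl
  intro k _
  by_cases hk : k = i
  · subst hk
    rw [h0]; simp
  · have h1 : (0 < (k : ℕ) ∧ k ≤ i) ↔ (0 < (k : ℕ) ∧ k ≤ j) := by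
      constructor
      · rintro ⟨h2, h3⟩
        refine ⟨h2, ?_⟩
        have h4 : (k : ℕ) ≤ i := h3
        have h5 : (k : ℕ) ≠ i := fun h => hk (Fin.ext h)
        show (k : ℕ) ≤ j
        omega
      · rintro ⟨h2, h3⟩
        refine ⟨h2, ?_⟩
        have h4 : (k : ℕ) ≤ j := h3
        show (k : ℕ) ≤ i
        omega
    simp only [h1]

private lemma kk_pos_last {L N : ℕ} (g : Fin L → ℕ) (hg : ∑ i, g i = N) (i0 l : Fin L)
    (hi0 : (i0 : ℕ) = 0) (hl : (l : ℕ) + 1 = L) (h0 : g i0 = 0) : pos g l = N := by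
  rw [← hg]
  unfold pos
  apply Finset.sum_congr rfl
  intro k _
  by_cases hk : (k : ℕ) = 0
  · have : k = i0 := Fin.ext (by rw [hk, hi0])
    subst this
    rw [h0]; simp
  · rw [if_pos]
    refine ⟨Nat.pos_of_ne_zero hk, ?_⟩
    show (k : ℕ) ≤ l
    have := k.2
    omega

private lemma kk_pos_le {L D : ℕ} (g g' : Fin L → ℕ) (h : ∑ i, (g i - g' i) ≤ D) (i : Fin L) :
    pos g i ≤ pos g' i + D := by
  refine le_trans ?_ (Nat.add_le_add_left h _)
  unfold pos
  rw [← Finset.sum_add_distrib]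
  apply Finset.sum_le_sum
  intro j _
  split_ifs
  · omega
  · exact Nat.zero_le _

/-- Lipschitz upwards. -/
private lemma kk_lip_up {L N : ℕ} (m : (Fin L → ℕ) → Fin L → ℝ) (c : ℝ)
    (hlip : ∀ t t' : Fin L → ℕ, Adm N t → Adm N t' → ∀ j, (∀ k, k ≠ j → t k = t' k) →
      t' j = t j + 1 → ∀ i, |m t i - m t' i| ≤ c) :
    ∀ k : ℕ, ∀ t t' : Fin L → ℕ, Adm N t → Adm N t' → (∀ j, t j ≤ t' j) →
      ∑ j, (t' j - t j) = k → ∀ i, |m t i - m t' i| ≤ c * k := by
  classical
  intro k
  induction k with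
  | zero =>
    intro t t' _ _ hle hsum i
    have h1 : t = t' := by
      funext j
      have h2 := (Finset.sum_eq_zero_iff.mp hsum) j (Finset.mem_univ _)
      have h3 := hle j
      omega
    rw [h1]; simp
  | succ k ih =>
    intro t t' ht ht' hle hsum i
    -- the largest index where they differ
    have hne : (Finset.univ.filter (fun j => t j < t' j)).Nonempty := by
      by_contra hcon
      rw [Finset.not_nonempty_iff_eq_empty, Finset.filter_eq_empty_iff] at hcon
      have : ∑ j, (t' j - t j) = 0 := by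
        apply Finset.sum_eq_zero
        intro j hj
        have := hcon hj
        omega
      omega
    obtain ⟨j, hj, hjmax⟩ := Finset.exists_max_image _ (fun j : Fin L => j) hne
    rw [Finset.mem_filter] at hj
    have hjlt := hj.2
    have hafter : ∀ b, j < b → t b = t' b := by
      intro b hb
      by_contra hcon
      have h1 : t b < t' b := lt_of_le_of_ne (hle b) hcon
      have := hjmax b (by rw [Finset.mem_filter]; exact ⟨Finset.mem_univ _, h1⟩)
      exact absurd hb (not_lt.mpr this)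
    have hup : ∀ b, Function.update t j (t j + 1) b = if b = j then t j + 1 else t b := by
      intro b
      by_cases hb : b = j
      · subst hb; simp
      · simp [hb]
    have hAdm : Adm N (Function.update t j (t j + 1)) := by
      refine ⟨?_, ?_, ?_⟩
      · intro a b hab
        rw [hup, hup]
        have hm := ht.1 hab
        split_ifs with h1 h2 h2
        · exact le_refl _
        · have h3 : j < b := lt_of_le_of_ne (by rw [← h1]; exact hab) (Ne.symm h2)
          have h4 := hafter b h3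
          have h5 := ht'.1 h3.le
          omega
        · rw [h2] at hm; omega
        · exact hm
      · intro b
        rw [hup]
        split_ifs with h1
        · have := ht'.2.1 j; omega
        · exact ht.2.1 b
      · intro b hb
        rw [hup]
        split_ifs with h1
        · exfalso
          rw [h1] at hb
          have h2 := ht'.2.2 j hb
          omega
        · exact ht.2.2 b hb
    have h1 := hlip t (Function.update t j (t j + 1)) ht hAdm j
      (fun k hk => by rw [hup, if_neg hk]) (by rw [hup, if_pos rfl]) i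
    have hsum2 : ∑ b, (t' b - Function.update t j (t j + 1) b) = k := by
      have e1 := Finset.add_sum_erase Finset.univ (fun b => t' b - t b) (Finset.mem_univ j)
      have e2 := Finset.add_sum_erase Finset.univ
        (fun b => t' b - Function.update t j (t j + 1) b) (Finset.mem_univ j)
      have e3 : ∑ b ∈ Finset.univ.erase j, (t' b - Function.update t j (t j + 1) b) =
          ∑ b ∈ Finset.univ.erase j, (t' b - t b) := by
        apply Finset.sum_congr rfl
        intro b hb
        rw [hup, if_neg (Finset.ne_of_mem_erase hb)]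
      rw [← e2, e3]
      have e4 : t' j - Function.update t j (t j + 1) j = t' j - (t j + 1) := by
        rw [hup, if_pos rfl]
      have e1' : (t' j - t j) + ∑ b ∈ Finset.univ.erase j, (t' b - t b) =
        ∑ b, (t' b - t b) := e1
      show (t' j - Function.update t j (t j + 1) j) +
        ∑ b ∈ Finset.univ.erase j, (t' b - t b) = k
      rw [e4]
      omega
    have h2 := ih (Function.update t j (t j + 1)) t' hAdm ht'
      (fun b => by
        rw [hup]
        split_ifs with h
        · rw [h]; omega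
        · exact hle b) hsum2 i
    have h3 := abs_sub_le (m t i) (m (Function.update t j (t j + 1)) i) (m t' i)
    push_cast
    linarith

/-- Lipschitz. -/
private lemma kk_lip {L N : ℕ} (m : (Fin L → ℕ) → Fin L → ℝ) (c : ℝ) (hc : 0 ≤ c)
    (hlip : ∀ t t' : Fin L → ℕ, Adm N t → Adm N t' → ∀ j, (∀ k, k ≠ j → t k = t' k) →
      t' j = t j + 1 → ∀ i, |m t i - m t' i| ≤ c) (D : ℕ)
    (t t' : Fin L → ℕ) (ht : Adm N t) (ht' : Adm N t') (h1 : ∀ j, t j ≤ t' j + D)
    (h2 : ∀ j, t' j ≤ t j + D) (i : Fin L) :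
    |m t i - m t' i| ≤ c * (L * D : ℕ) := by
  classical
  let s : Fin L → ℕ := fun j => max (t j) (t' j)
  have hs : Adm N s := by
    refine ⟨?_, ?_, ?_⟩
    · intro a b hab
      exact max_le_max (ht.1 hab) (ht'.1 hab)
    · intro b; exact max_le (ht.2.1 b) (ht'.2.1 b)
    · intro b hb
      show max (t b) (t' b) = 0
      rw [ht.2.2 b hb, ht'.2.2 b hb]; simp
  have e1 := kk_lip_up m c hlip _ t s ht hs (fun j => le_max_left _ _) rfl i
  have e2 := kk_lip_up m c hlip _ t' s ht' hs (fun j => le_max_right _ _) rfl i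
  have e3 : ∑ j, (s j - t j) + ∑ j, (s j - t' j) ≤ L * D := by
    rw [← Finset.sum_add_distrib]
    calc ∑ j, ((s j - t j) + (s j - t' j)) ≤ ∑ _j : Fin L, D := by
          apply Finset.sum_le_sum
          intro j _
          have a1 := h1 j
          have a2 := h2 j
          show (max (t j) (t' j) - t j) + (max (t j) (t' j) - t' j) ≤ D
          omega
      _ = L * D := by rw [Finset.sum_const, Finset.card_univ, Fintype.card_fin, smul_eq_mul]
  have e4 := abs_sub_le (m t i) (m s i) (m t' i)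
  rw [abs_sub_comm (m s i) (m t' i)] at e4
  have e5 : c * ((∑ j, (s j - t j) : ℕ) : ℝ) + c * ((∑ j, (s j - t' j) : ℕ) : ℝ) ≤
      c * ((L * D : ℕ) : ℝ) := by
    rw [← mul_add, ← Nat.cast_add]
    exact mul_le_mul_of_nonneg_left (by exact_mod_cast e3) hc
  linarith

/-- **Discrete KKM lemma on the simplex of gaps.** Positions `0 = t 0 ≤ t 1 ≤ … ≤ N`; the gaps
are `t i - t (i-1)` and, for `i = 0`, `N - t (L-1)`. If the masses `m t i` are nonnegative with
sum `n`, vanish when the gap of `i` vanishes, and change by at most `c` when one position is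
moved by one unit, then for some positions all the masses are `n / L` up to `2 c L ^ 4`. -/
theorem discrete_kkm (L : ℕ) (hL : 0 < L) (N : ℕ) (m : (Fin L → ℕ) → Fin L → ℝ) (n c : ℝ)
    (hc : 0 ≤ c)
    (hnn : ∀ t, Adm N t → ∀ i, 0 ≤ m t i)
    (hsum : ∀ t, Adm N t → ∑ i, m t i = n)
    (hgap : ∀ t, Adm N t → ∀ i j : Fin L, (j : ℕ) + 1 = i → t i = t j → m t i = 0)
    (hgap0 : ∀ t, Adm N t → ∀ i l : Fin L, (i : ℕ) = 0 → (l : ℕ) + 1 = L → t l = N → m t i = 0)
    (hlip : ∀ t t' : Fin L → ℕ, Adm N t → Adm N t' → ∀ j, (∀ k, k ≠ j → t k = t' k) →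
      t' j = t j + 1 → ∀ i, |m t i - m t' i| ≤ c) :
    ∃ t : Fin L → ℕ, Adm N t ∧ ∀ i, |m t i - n / L| ≤ 2 * c * L ^ 4 := by
  classical
  have : Nonempty (Fin L) := ⟨⟨0, hL⟩⟩
  have hLr : (0 : ℝ) < L := by exact_mod_cast hL
  have hL1 : (1 : ℝ) ≤ L := by exact_mod_cast hL
  -- the positions of a composition
  let q : Cmp L N → Fin L → ℕ := fun x => pos (fun i => (x.1 i : ℕ))
  have hq : ∀ x : Cmp L N, Adm N (q x) := fun x => kk_pos_adm _ x.2
  -- colour: an index with the least mass
  have hexm : ∀ x : Cmp L N, ∃ i : Fin L, ∀ j, m (q x) i ≤ m (q x) j := by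
    intro x
    obtain ⟨i, _, hi⟩ := Finset.univ.exists_min_image (fun i => m (q x) i) Finset.univ_nonempty
    exact ⟨i, fun j => hi j (Finset.mem_univ _)⟩
  choose col hcol using hexm
  obtain ⟨S, C, hC, hScol, hSsmall, hSout⟩ := kk_small2 hL col
  obtain ⟨i1, hi1⟩ := hC
  obtain ⟨x, hxS, _⟩ := hScol i1 hi1
  -- Lipschitz inside the family
  have hin : ∀ x ∈ S, ∀ x' ∈ S, ∀ i, |m (q x) i - m (q x') i| ≤ c * L ^ 3 := by
    intro x hx x' hx' i
    have hD : ∀ x ∈ S, ∀ x' ∈ S, ∑ j : Fin L, ((x.1 j : ℕ) - (x'.1 j : ℕ)) ≤ L * L := by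
      intro x hx x' hx'
      calc ∑ j : Fin L, ((x.1 j : ℕ) - (x'.1 j : ℕ)) ≤ ∑ _j : Fin L, L := by
            apply Finset.sum_le_sum
            intro j _
            have := hSsmall x hx x' hx' j
            omega
        _ = L * L := by rw [Finset.sum_const, Finset.card_univ, Fintype.card_fin, smul_eq_mul]
    have h1 := kk_lip m c hc hlip (L * L) (q x) (q x') (hq x) (hq x')
      (fun j => kk_pos_le _ _ (hD x hx x' hx') j) (fun j => kk_pos_le _ _ (hD x' hx' x hx) j) i
    have h2 : ((L * (L * L) : ℕ) : ℝ) = (L : ℝ) ^ 3 := by push_cast; ring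
    rwa [h2] at h1
  -- the least mass is at most the average
  have havg : ∀ x : Cmp L N, m (q x) (col x) ≤ n / L := by
    intro x
    rw [le_div_iff₀ hLr, ← hsum (q x) (hq x), mul_comm]
    calc (L : ℝ) * m (q x) (col x) = ∑ _j : Fin L, m (q x) (col x) := by
          rw [Finset.sum_const, Finset.card_univ, Fintype.card_fin, nsmul_eq_mul]
      _ ≤ ∑ j, m (q x) j := Finset.sum_le_sum (fun j _ => hcol x j)
  refine ⟨q x, hq x, ?_⟩
  have hcL3 : 0 ≤ c * (L : ℝ) ^ 3 := by positivity
  have hcL34 : c * (L : ℝ) ^ 3 ≤ c * (L : ℝ) ^ 4 := by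
    apply mul_le_mul_of_nonneg_left _ hc
    exact pow_le_pow_right₀ hL1 (by norm_num)
  have hcL23 : c * (L : ℝ) ^ 2 ≤ c * (L : ℝ) ^ 3 := by
    apply mul_le_mul_of_nonneg_left _ hc
    exact pow_le_pow_right₀ hL1 (by norm_num)
  have hcL2 : 0 ≤ c * (L : ℝ) ^ 2 := by positivity
  by_cases hall : C = Finset.univ
  · -- all the colours are present
    have hupper : ∀ i, m (q x) i ≤ n / L + c * L ^ 3 := by
      intro i
      obtain ⟨x', hx', hcx'⟩ := hScol i (by rw [hall]; exact Finset.mem_univ _)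
      have h1 := hin x hxS x' hx' i
      have h2 := havg x'
      rw [hcx'] at h2
      have h3 := (abs_le.mp h1).2
      linarith
    intro i
    rw [abs_le]
    constructor
    · have h1 := hsum (q x) (hq x)
      rw [← Finset.add_sum_erase Finset.univ (fun j => m (q x) j) (Finset.mem_univ i)] at h1
      have h2 : ∑ j ∈ Finset.univ.erase i, m (q x) j ≤
          ∑ _j ∈ Finset.univ.erase i, (n / L + c * (L : ℝ) ^ 3) :=
        Finset.sum_le_sum (fun j _ => hupper j)
      rw [Finset.sum_const, Finset.card_erase_of_mem (Finset.mem_univ _), Finset.card_univ,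
        Fintype.card_fin, nsmul_eq_mul, Nat.cast_sub hL, Nat.cast_one] at h2
      have h3 : (L : ℝ) * (n / L) = n := by field_simp
      have h4 : ((L : ℝ) - 1) * (n / L + c * (L : ℝ) ^ 3) =
          n - n / L + c * (L : ℝ) ^ 4 - c * (L : ℝ) ^ 3 := by
        have : ((L : ℝ) - 1) * (n / L + c * (L : ℝ) ^ 3) =
          (L : ℝ) * (n / L) - n / L + c * (L : ℝ) ^ 4 - c * (L : ℝ) ^ 3 := by ring
        rw [this, h3]
      rw [h4] at h2
      linarith
    · have := hupper i
      linarith
  · -- some colour is absent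
    obtain ⟨j, hj⟩ : ∃ j, j ∉ C := by
      by_contra hcon
      push Not at hcon
      exact hall (Finset.eq_univ_iff_forall.mpr hcon)
    have hji1 : j ≠ i1 := fun h => hj (h ▸ hi1)
    have hface : ∀ x ∈ S, ∀ j, j ∉ C → m (q x) j ≤ c * L ^ 2 := by
      intro x hx j hj
      have hji : j ≠ i1 := fun h => hj (h ▸ hi1)
      have hxj := hSout x hx j hj
      -- the composition with the gap `j` moved to `i1`
      let g' : Fin L → ℕ := fun i =>
        if i = j then 0 else if i = i1 then (x.1 i : ℕ) + x.1 j else x.1 i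
      have hg'j : g' j = 0 := by simp [g']
      have hg'i : g' i1 = (x.1 i1 : ℕ) + x.1 j := by simp [g', hji.symm]
      have hg'o : ∀ i, i ≠ j → i ≠ i1 → g' i = x.1 i := by
        intro i h1 h2; simp [g', h1, h2]
      have hi1m : i1 ∈ (Finset.univ.erase j : Finset (Fin L)) := by simp [hji.symm]
      have hsplit : ∀ f : Fin L → ℕ, ∑ i, f i =
          f j + (f i1 + ∑ i ∈ (Finset.univ.erase j).erase i1, f i) := by
        intro f
        rw [Finset.add_sum_erase _ f hi1m, Finset.add_sum_erase _ f (Finset.mem_univ j)]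
      have hsame : ∑ i ∈ (Finset.univ.erase j).erase i1, g' i =
          ∑ i ∈ (Finset.univ.erase j).erase i1, (x.1 i : ℕ) := by
        apply Finset.sum_congr rfl
        intro i hi
        rw [Finset.mem_erase, Finset.mem_erase] at hi
        exact hg'o i hi.2.1 hi.1
      have hg' : ∑ i, g' i = N := by
        have h0 := x.2
        rw [hsplit (fun i => (x.1 i : ℕ))] at h0
        rw [hsplit g', hsame, hg'j, hg'i]
        omega
      have hd1 : ∑ i, ((x.1 i : ℕ) - g' i) ≤ L := by
        rw [hsplit (fun i => (x.1 i : ℕ) - g' i)]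
        have : ∑ i ∈ (Finset.univ.erase j).erase i1, ((x.1 i : ℕ) - g' i) = 0 := by
          apply Finset.sum_eq_zero
          intro i hi
          rw [Finset.mem_erase, Finset.mem_erase] at hi
          rw [hg'o i hi.2.1 hi.1]; omega
        rw [this, hg'j, hg'i]; omega
      have hd2 : ∑ i, (g' i - (x.1 i : ℕ)) ≤ L := by
        rw [hsplit (fun i => g' i - (x.1 i : ℕ))]
        have : ∑ i ∈ (Finset.univ.erase j).erase i1, (g' i - (x.1 i : ℕ)) = 0 := by
          apply Finset.sum_eq_zero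
          intro i hi
          rw [Finset.mem_erase, Finset.mem_erase] at hi
          rw [hg'o i hi.2.1 hi.1]; omega
        rw [this, hg'j, hg'i]; omega
      have h1 := kk_lip m c hc hlip L (q x) (pos g') (hq x) (kk_pos_adm _ hg')
        (fun k => kk_pos_le _ _ hd1 k) (fun k => kk_pos_le _ _ hd2 k) j
      have h2 : m (pos g') j = 0 := by
        by_cases hj0 : (j : ℕ) = 0
        · exact hgap0 _ (kk_pos_adm _ hg') j ⟨L - 1, by omega⟩ hj0 (by simp; omega)
            (kk_pos_last g' hg' j _ hj0 (by simp; omega) hg'j)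
        · exact hgap _ (kk_pos_adm _ hg') j ⟨(j : ℕ) - 1, by omega⟩ (by simp; omega)
            (kk_pos_gap g' j _ (by simp; omega) hg'j)
      rw [h2, sub_zero] at h1
      have h3 : ((L * L : ℕ) : ℝ) = (L : ℝ) ^ 2 := by push_cast; ring
      rw [h3] at h1
      exact (abs_le.mp h1).2
    have hbound : ∀ i, m (q x) i ≤ c * L ^ 2 + c * L ^ 3 := by
      intro i
      by_cases hi : i ∈ C
      · obtain ⟨x', hx', hcx'⟩ := hScol i hi
        have h1 := hface x' hx' j hj
        have h2 := hcol x' j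
        rw [hcx'] at h2
        have h3 := (abs_le.mp (hin x hxS x' hx' i)).2
        linarith
      · have := hface x hxS i hi
        linarith
    have hn : n ≤ L * (c * L ^ 2 + c * L ^ 3) := by
      rw [← hsum (q x) (hq x)]
      calc ∑ i, m (q x) i ≤ ∑ _i : Fin L, (c * (L : ℝ) ^ 2 + c * L ^ 3) :=
            Finset.sum_le_sum (fun i _ => hbound i)
        _ = L * (c * L ^ 2 + c * L ^ 3) := by
            rw [Finset.sum_const, Finset.card_univ, Fintype.card_fin, nsmul_eq_mul]
    have hn2 : n / L ≤ c * L ^ 2 + c * L ^ 3 := by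
      rw [div_le_iff₀ hLr]; linarith
    have hn0 : 0 ≤ n := by
      rw [← hsum (q x) (hq x)]
      exact Finset.sum_nonneg (fun i _ => hnn _ (hq x) i)
    have hn3 : 0 ≤ n / L := div_nonneg hn0 hLr.le
    intro i
    have h1 := hbound i
    have h2 := hnn _ (hq x) i
    rw [abs_le]
    constructor <;> linarith

end Pool.Agent.H84L
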